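import Pool.Agent.H515Z.NSEx

set_option autoImplicit false

namespace Pool.Agent.Results.MP_1f9cc6_al.NotSofic

open Pool.Agent.H515Z.NS

theorem result : ∃ (G₁ G₂ X : Type) (_ : Group G₁) (_ : Group G₂) (_ : Countable G₁)
    (_ : Countable G₂) (_ : Countable X) (α₁ : G₁ →* Equiv.Perm X) (α₂ : G₂ →* Equiv.Perm X)
    (hc : ∀ g h, Commute (α₁ g) (α₂ h)),
    SoficAction α₁ ∧ SoficAction α₂ ∧ ¬ SoficAction (α₁.noncommCoprod α₂ hc) :=
  main

end Pool.Agent.Results.MP_1f9cc6_al.NotSofic
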